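import Mathlib
import Pool.Agent.X48.OddIndep

/-!
The odd independence number of the hypercube of even dimension `d` is asymptotically half of the
number of vertices.
-/

namespace Pool.Agent.Results.MP_5d7181_co.LimitHalf

open Pool.Agent.X48.OddIndep Filter Topology

theorem result :
    Tendsto (fun m : ℕ => (alphaOdd (cube (2 * m)) : ℝ) / 2 ^ (2 * m)) atTop (𝓝 (1 / 2)) := by
  have hlow : Tendsto (fun m : ℕ => (1 / 2 : ℝ) - 1 / (m : ℝ)) atTop (𝓝 (1 / 2)) := by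
    have h := tendsto_one_div_atTop_nhds_zero_nat (𝕜 := ℝ)
    simpa using h.const_sub (1 / 2 : ℝ)
  have hup : Tendsto (fun _ : ℕ => (1 / 2 : ℝ)) atTop (𝓝 (1 / 2)) := tendsto_const_nhds
  refine tendsto_of_tendsto_of_tendsto_of_le_of_le' hlow hup ?_ ?_
  · filter_upwards [eventually_ge_atTop 1] with m hm
    have hm0 : 2 * m ≠ 0 := by omega
    set k := Nat.log 2 (2 * m) with hk
    have hk1 : 1 ≤ k := by
      rw [hk]
      exact Nat.log_pos (by norm_num) (by omega)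
    have hkd : 2 ^ k ≤ 2 * m := Nat.pow_log_le_self 2 hm0
    have hlt : 2 * m < 2 ^ (k + 1) := Nat.lt_pow_succ_log_self (by norm_num) _
    have h1 := alpha_ge (even_two_mul m) hk1 hkd
    have h2 : (2 : ℝ) ^ (2 * m + k) ≤ (alphaOdd (cube (2 * m)) : ℝ) * 2 ^ (k + 1) + 2 ^ (2 * m) := by
      exact_mod_cast h1
    have hp : (0 : ℝ) < 2 ^ (2 * m) := by positivity
    have hq : (0 : ℝ) < 2 ^ (k + 1) := by positivity
    rw [le_div_iff₀ hp]
    have h3 : (2 : ℝ) ^ (2 * m + k) = 2 ^ (2 * m) * 2 ^ (k + 1) / 2 := by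
      rw [pow_add, pow_succ]; ring
    rw [h3] at h2
    have h4 : (m : ℝ) ≤ 2 ^ (k + 1) := by
      have : m ≤ 2 ^ (k + 1) := by omega
      exact_mod_cast this
    have hm' : (0 : ℝ) < m := by exact_mod_cast hm
    have h5 : (2 : ℝ) ^ (2 * m) ≤ 2 ^ (2 * m) * 2 ^ (k + 1) / m := by
      rw [le_div_iff₀ hm']
      exact mul_le_mul_of_nonneg_left h4 hp.le
    have h6 : ((1 / 2 - 1 / (m : ℝ)) * 2 ^ (2 * m)) * 2 ^ (k + 1) ≤
        (alphaOdd (cube (2 * m)) : ℝ) * 2 ^ (k + 1) := by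
      have e : ((1 / 2 - 1 / (m : ℝ)) * 2 ^ (2 * m)) * 2 ^ (k + 1) =
          2 ^ (2 * m) * 2 ^ (k + 1) / 2 - 2 ^ (2 * m) * 2 ^ (k + 1) / m := by
        ring
      rw [e]
      linarith
    exact le_of_mul_le_mul_right h6 hq
  · filter_upwards [eventually_ge_atTop 1] with m hm
    have h1 := alpha_le (d := 2 * m) (by omega)
    have h2 : (2 : ℝ) * (alphaOdd (cube (2 * m)) : ℝ) ≤ 2 ^ (2 * m) := by exact_mod_cast h1
    have hp : (0 : ℝ) < 2 ^ (2 * m) := by positivity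
    rw [div_le_iff₀ hp]
    linarith

end Pool.Agent.Results.MP_5d7181_co.LimitHalf
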